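import Pool.Agent.Lib.MP_c35813_pr.F3

set_option autoImplicit false

open MeasureTheory Filter
open scoped NNReal ENNReal Topology

namespace Pool.Agent.Results.MP_c35813_pr.SpreadOut

/-- The position at time `t` of the walk on `ℤ^d` from `0` with the steps `s`; every step is one of
the `2d` unit vectors. -/
def pos {d n : ℕ} (s : Fin n → Fin d × Bool) (t : ℕ) : Fin d → ℤ :=
  ∑ i : Fin n, if (i : ℕ) < t then Pi.single (s i).1 (if (s i).2 then 1 else -1) else 0

/-- The environment `ω` says which sites are open (`true`); the other sites are the obstacles.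
`surv ω n`: the sequences of `n` steps for which the walk meets no obstacle up to time `n`
(`τ > n`). -/
def surv {d : ℕ} (ω : (Fin d → ℤ) → Bool) (n : ℕ) : Finset (Fin n → Fin d × Bool) :=
  Finset.univ.filter (fun s => ∀ t ≤ n, ω (pos s t) = true)

/-- The quenched probability `𝐏(S_t ∈ A ∣ τ > n)`: all the `(2d)^n` sequences of steps are equally
likely. -/
noncomputable def condProb {d : ℕ} (ω : (Fin d → ℤ) → Bool) (n t : ℕ) (A : Finset (Fin d → ℤ)) : ℝ :=
  (((surv ω n).filter (fun s => pos s t ∈ A)).card : ℝ) / ((surv ω n).card : ℝ)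

/-- The open component of the origin is infinite. -/
def InfCluster {d : ℕ} (ω : (Fin d → ℤ) → Bool) : Prop :=
  {y : Fin d → ℤ | ∃ n : ℕ, ∃ s ∈ surv ω n, pos s n = y}.Infinite

/-- `ℙ`: all the sites are open with probability `p`, independently, conditioned on the event that
the component of the origin is infinite. -/
noncomputable def law (d : ℕ) (p : ℝ≥0) (hp : p ≤ 1) : Measure ((Fin d → ℤ) → Bool) :=
  ProbabilityTheory.cond (Measure.infinitePi (fun _ : Fin d → ℤ => (PMF.bernoulli p hp).toMeasure))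
    {ω | InfCluster ω}

/-- `L_n = d log_{1/p} n`. -/
noncomputable def L (d : ℕ) (p : ℝ≥0) (n : ℕ) : ℝ := d * Real.log n / Real.log (1 / (p : ℝ))

/-- Let `d ≥ 2`, `0 < p < 1`.
(i) For every `ε > 0` there is `a > 0` such that with `ℙ`-probability tending to one the following
holds simultaneously for all the times `t` with `(log n)^7 ≤ t ≤ n` and all the sets `A` with
`|A| ≤ a L_n`: `𝐏(S_t ∈ A ∣ τ > n) ≤ ε`.
(ii) (Q2 of the problem) For every sequence of times `t_n ≤ n` with `t_n (log n)^(2/d) / n → ∞` and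
all the sets `A_n`, depending on the environment, with `|A_n| / L_n → 0` in `ℙ`-probability,
`𝐏(S_{t_n} ∈ A_n ∣ τ > n) → 0` in `ℙ`-probability. -/
theorem result (d : ℕ) (hd : 2 ≤ d) (p : ℝ≥0) (hp0 : 0 < p) (hp1 : p < 1) :
    (∀ ε : ℝ, 0 < ε → ∃ a : ℝ, 0 < a ∧
      Tendsto (fun n : ℕ => law d p hp1.le {ω | ∃ t : ℕ, t ≤ n ∧ Real.log n ^ 7 ≤ t ∧
        ∃ A : Finset (Fin d → ℤ), (A.card : ℝ) ≤ a * L d p n ∧ ε < condProb ω n t A}) atTop (𝓝 0)) ∧
    (∀ t : ℕ → ℕ, (∀ n, t n ≤ n) →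
      Tendsto (fun n : ℕ => (t n : ℝ) * Real.log n ^ (2 / d : ℝ) / n) atTop atTop →
      ∀ A : ℕ → ((Fin d → ℤ) → Bool) → Finset (Fin d → ℤ),
        (∀ η : ℝ, 0 < η →
          Tendsto (fun n : ℕ => law d p hp1.le {ω | η * L d p n < ((A n ω).card : ℝ)}) atTop (𝓝 0)) →
        ∀ ε : ℝ, 0 < ε →
          Tendsto (fun n : ℕ => law d p hp1.le {ω | ε < condProb ω n (t n) (A n ω)}) atTop (𝓝 0)) :=
  ⟨fun ε hε => Pool.Agent.RWO.main_uniform3 hd p hp0 hp1.le hp1 ε hε,
    fun t ht0 ht A hA ε hε => Pool.Agent.RWO.main_Q2_all hd p hp0 hp1.le hp1 t ht0 ht A hA ε hε⟩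

end Pool.Agent.Results.MP_c35813_pr.SpreadOut
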